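import Pool.Agent.W279.P4.Drury3

/-!
# Drury's permanent inequality for matrices of order 3 and 4

`T1 A = a₁₁ per B` and `T2 A = ∑_k |a_{1k}|² per B_{kk}` (see `Pool/Agent/W279/P4/Drury3.lean`).
For `3 x 3` positive semidefinite matrices Drury's inequality `T1² + T2² ≤ (per A)²` holds. For
`4 x 4` positive semidefinite matrices `T2 ≤ per A`, `4 T1 + 12 T2 ≤ 13 per A` and
`T1² + T2² ≤ (25/16) (per A)²`. (The case of order 4 uses the permanent-on-top theorem for `4 x 4`
matrices, frozen statement S01687, proved by the team: `Pool/Agent/W258/P4`.)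
-/

set_option autoImplicit false

open scoped ComplexOrder

namespace Pool.Agent.Results.MP_b30f32_co.SmallOrders

open Pool.Agent.W279.P4

theorem result :
    (∀ A : Matrix (Fin 4) (Fin 4) ℂ, A.PosSemidef →
      T2 (n := 3) A ≤ A.permanent.re ∧
      4 * T1 (n := 3) A + 12 * T2 (n := 3) A ≤ 13 * A.permanent.re ∧
      T1 (n := 3) A ^ 2 + T2 (n := 3) A ^ 2 ≤ 25 / 16 * A.permanent.re ^ 2) ∧
    ∀ A : Matrix (Fin 3) (Fin 3) ℂ, A.PosSemidef →
      T1 (n := 2) A ^ 2 + T2 (n := 2) A ^ 2 ≤ A.permanent.re ^ 2 :=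
  ⟨drury4, drury3⟩

end Pool.Agent.Results.MP_b30f32_co.SmallOrders
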